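import Pool.Agent.KIL.Stmts
import Pool.Agent.Helper70_LQF.UFL

/-!
# The pre-kills, row UF3 (helper77): the functional with a second function
-/

set_option autoImplicit false

open MeasureTheory ProbabilityTheory Function Filter

open scoped ENNReal BigOperators Topology NNReal

noncomputable section

namespace Pool.Agent.KIL.H77

open Pool.Agent.LE.QF (HJ LL dC JalStmt FlwStmt)
open Pool.Agent.LE.QF.H70 (cu_contDiff cu_nonneg cu_le_one cu_eq_one le_cu cu_le cu_deriv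
  cu_deriv2 LL_const_near)

theorem core {ι : Type} [Fintype ι] (U P : ι → ℝ) (w u φ LU LP ρ a b b₁ B C₁ g : ℝ)
    (hC : 0 < C₁) (hw : 0 < w) (hw1 : w ≤ 1) (hu0 : 0 ≤ u) (ha : 0 ≤ a) (hb : 0 ≤ b)
    (hb1 : 0 ≤ b₁) (hφ0 : 0 ≤ φ) (hφ1 : φ ≤ 1) (hB : 1 + 2 * C₁ ≤ B) (hg : u ≤ g)
    (hLU : LU ≤ a * u + b) (hLP : LP ≤ -ρ + b₁) (hS : ∑ c, P c ^ 2 ≤ C₁ * ρ) :
    w ^ 3 * LP + (B - φ) * (3 * w ^ 2 * LU + -(6 * w) / 2 * ∑ c, U c ^ 2) -
      3 * w ^ 2 * ∑ c, U c * P c - 3 * a * B * g ≤ b₁ + 3 * B * b := by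
  have hSU : 0 ≤ ∑ c, U c ^ 2 := Finset.sum_nonneg fun c _ => sq_nonneg _
  have h1 : 0 ≤ ∑ c, (w / C₁) * (w * P c + (3 / 2) * C₁ * U c) ^ 2 :=
    Finset.sum_nonneg fun c _ => mul_nonneg (div_nonneg hw.le hC.le) (sq_nonneg _)
  have h2 : ∑ c, (w / C₁) * (w * P c + (3 / 2) * C₁ * U c) ^ 2 =
      (w ^ 3 / C₁) * ∑ c, P c ^ 2 + 3 * w ^ 2 * ∑ c, U c * P c +
        (9 / 4) * C₁ * w * ∑ c, U c ^ 2 := by
    rw [Finset.mul_sum, Finset.mul_sum, Finset.mul_sum, ← Finset.sum_add_distrib,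
      ← Finset.sum_add_distrib]
    refine Finset.sum_congr rfl fun c _ => ?_
    field_simp
    ring
  rw [h2] at h1
  have hw3 : 0 ≤ w ^ 3 := by positivity
  have h3 : (w ^ 3 / C₁) * ∑ c, P c ^ 2 ≤ w ^ 3 * ρ := by
    calc (w ^ 3 / C₁) * ∑ c, P c ^ 2 ≤ (w ^ 3 / C₁) * (C₁ * ρ) :=
          mul_le_mul_of_nonneg_left hS (by positivity)
      _ = w ^ 3 * ρ := by field_simp
  have h4 : w ^ 3 * LP ≤ -(w ^ 3 * ρ) + b₁ := by
    have h5 := mul_le_mul_of_nonneg_left hLP hw3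
    have h6 : w ^ 3 ≤ 1 := pow_le_one₀ hw.le hw1
    have h7 := mul_le_mul_of_nonneg_right h6 hb1
    linarith
  have hBφ : 2 * C₁ ≤ B - φ := by linarith
  have hBφ0 : 0 ≤ B - φ := by linarith
  have hB0 : 0 ≤ B := by linarith
  have h5 : (B - φ) * (3 * w ^ 2 * LU) ≤ 3 * B * (a * g + b) := by
    have h6 : 3 * w ^ 2 * LU ≤ 3 * w ^ 2 * (a * u + b) :=
      mul_le_mul_of_nonneg_left hLU (by positivity)
    have h7 : 0 ≤ a * u + b := by positivity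
    have h8 : w ^ 2 ≤ 1 := pow_le_one₀ hw.le hw1
    have h9 : 3 * w ^ 2 * (a * u + b) ≤ 3 * (a * g + b) := by
      have h10 : w ^ 2 * (a * u + b) ≤ 1 * (a * u + b) := mul_le_mul_of_nonneg_right h8 h7
      have h11 := mul_le_mul_of_nonneg_left hg ha
      linarith
    have h10 : 0 ≤ 3 * w ^ 2 * (a * u + b) := by positivity
    calc (B - φ) * (3 * w ^ 2 * LU) ≤ (B - φ) * (3 * w ^ 2 * (a * u + b)) :=
          mul_le_mul_of_nonneg_left h6 hBφ0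
      _ ≤ B * (3 * w ^ 2 * (a * u + b)) := mul_le_mul_of_nonneg_right (by linarith) h10
      _ ≤ B * (3 * (a * g + b)) := mul_le_mul_of_nonneg_left h9 hB0
      _ = 3 * B * (a * g + b) := by ring
  have h6 : 2 * C₁ * (3 * w * ∑ c, U c ^ 2) ≤ (B - φ) * (3 * w * ∑ c, U c ^ 2) :=
    mul_le_mul_of_nonneg_right hBφ (by positivity)
  have h7 : 0 ≤ C₁ * w * ∑ c, U c ^ 2 := by positivity
  have e1 : (B - φ) * (3 * w ^ 2 * LU + -(6 * w) / 2 * ∑ c, U c ^ 2) =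
      (B - φ) * (3 * w ^ 2 * LU) - (B - φ) * (3 * w * ∑ c, U c ^ 2) := by ring
  rw [e1]
  nlinarith

/-- UF3 -/
theorem uf3 (jal : JalStmt) (flw : FlwStmt) : Uf3Stmt := by
  intro ι _ _ T C₁ B b b₁ u Φ ρ hT hC hB hb hb₁ hab hu
  have hBpos : 0 < B := by linarith
  obtain ⟨κ, hκ⟩ : ∃ κ : ℝ, κ = B⁻¹ := ⟨_, rfl⟩
  have hκ0 : 0 < κ := by rw [hκ]; exact inv_pos.2 hBpos
  have hκB : κ * B = 1 := by rw [hκ]; exact inv_mul_cancel₀ hBpos.ne'
  obtain ⟨F, hF⟩ : ∃ F : ℝ × (ι → ℝ) → ℝ,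
      F = fun r => κ * ((1 - cu (u r)) * Φ r + B * cu (u r)) := ⟨_, rfl⟩
  have hkey : ∀ q : ℝ × (ι → ℝ), 0 ≤ q.1 → q.1 ≤ T → ContDiffAt ℝ 2 F q ∧ 0 ≤ F q ∧ F q ≤ 1 ∧
      LL F q ≤ 0 * F q + κ * (b₁ q.1 + 3 * B * b q.1) := by
    intro q h0 h1
    obtain ⟨hu0, hs, hΦs, hΦ0, hΦ1, hl⟩ := hu q h0 h1
    obtain ⟨hbq, hb1q⟩ := hab q.1
    have hg0 : 0 ≤ cu (u q) := cu_nonneg hu0
    have hg1 : cu (u q) ≤ 1 := cu_le_one (u q)
    have hF0 : 0 ≤ F q := by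
      rw [hF]
      have h2 : 0 ≤ (1 - cu (u q)) * Φ q := mul_nonneg (by linarith) hΦ0
      have h3 : 0 ≤ B * cu (u q) := mul_nonneg hBpos.le hg0
      exact mul_nonneg hκ0.le (by linarith)
    have hF1 : F q ≤ 1 := by
      refine le_trans ?_ hκB.le
      rw [hF]
      refine mul_le_mul_of_nonneg_left ?_ hκ0.le
      have h2 : (1 - cu (u q)) * Φ q ≤ (1 - cu (u q)) * B :=
        mul_le_mul_of_nonneg_left (by linarith) (by linarith)
      linarith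
    have hr0 : 0 ≤ κ * (b₁ q.1 + 3 * B * b q.1) := by positivity
    have hc := (jal ι ℝ q).1 κ
    have hBj := (jal ι ℝ q).1 B
    have h2 : HJ u q (u q) (fun c => dC c u q) (LL u q) := ⟨hs, rfl, fun _ => rfl, rfl⟩
    have h3 := ((jal ι ℝ q).2.2.2.2.1 u (u q) (LL u q) _ h2).2
      Pool.Agent.LE.QF.H70.cu cu_contDiff.contDiffAt
    have h4 : HJ Φ q (Φ q) (fun c => dC c Φ q) (LL Φ q) := ⟨hΦs, rfl, fun _ => rfl, rfl⟩
    have h5 := ((jal ι ℝ q).2.2.1 _ _ _ _ _ _ _ _ ((jal ι ℝ q).1 1) h3).2.1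
    have h6 := ((jal ι ℝ q).2.2.1 _ _ _ _ _ _ _ _ h5 h4).2.2
    have h7 := ((jal ι ℝ q).2.2.1 _ _ _ _ _ _ _ _ hBj h3).2.2
    have h8 := ((jal ι ℝ q).2.2.1 _ _ _ _ _ _ _ _ h6 h7).1
    have h9 := ((jal ι ℝ q).2.2.1 _ _ _ _ _ _ _ _ hc h8).2.2
    have hF' : F = fun r => κ * ((1 - Pool.Agent.LE.QF.H70.cu (u r)) * Φ r +
      B * Pool.Agent.LE.QF.H70.cu (u r)) := hF
    have h10 : ContDiffAt ℝ 2 F q := by rw [hF']; exact h9.sm
    refine ⟨h10, hF0, hF1, ?_⟩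
    have h11 := h9.ge
    rw [← hF'] at h11
    rw [h11, cu_deriv2, cu_deriv]
    dsimp only
    have e0 : ∀ f : ι → ℝ, ∑ c : ι, (0 : ℝ) * f c = 0 := by
      intro f
      simp
    rw [e0, e0]
    rcases le_or_gt 1 (u q) with hu1 | hu1
    · have hmx : max (1 - u q) 0 = 0 := max_eq_right (by linarith)
      rw [hmx, cu_eq_one hu1]
      have e2 : ∑ c : ι, (0 - 3 * (0 : ℝ) ^ 2 * dC c u q) * dC c Φ q = 0 := by
        refine Finset.sum_eq_zero fun c _ => ?_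
        ring
      rw [e2]
      linarith
    · have hmx : max (1 - u q) 0 = 1 - u q := max_eq_left (by linarith)
      rw [hmx]
      obtain ⟨hl1, hl2, hl3⟩ := hl hu1
      have h12 := core (fun c => dC c u q) (fun c => dC c Φ q) (1 - u q) (u q) (Φ q) (LL u q)
        (LL Φ q) (ρ q) 0 (b q.1) (b₁ q.1) B C₁ (cu (u q)) hC (by linarith)
        (by linarith) hu0 le_rfl hbq hb1q hΦ0 hΦ1 hB (le_cu hu0 hu1.le) (by linarith) hl2 hl3
      have e2 : ∑ c : ι, (0 - 3 * (1 - u q) ^ 2 * dC c u q) * dC c Φ q =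
          -(3 * (1 - u q) ^ 2 * ∑ c, dC c u q * dC c Φ q) := by
        rw [Finset.mul_sum, ← Finset.sum_neg_distrib]
        refine Finset.sum_congr rfl fun c _ => ?_
        ring
      rw [e2]
      have e3 : 1 - Pool.Agent.LE.QF.H70.cu (u q) = (1 - u q) ^ 3 := by
        unfold Pool.Agent.LE.QF.H70.cu
        rw [hmx]
        ring
      rw [e3]
      have h13 := mul_le_mul_of_nonneg_left h12 hκ0.le
      linarith
  have h1 := flw ι T (fun _ => 0) (fun t => κ * (b₁ t + 3 * B * b t)) F hT continuous_const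
    (by fun_prop) (fun t => ⟨le_rfl, by
      have h3 := hab t
      exact mul_nonneg hκ0.le (by nlinarith [mul_nonneg hBpos.le h3.1])⟩) hkey
  rw [intervalIntegral.integral_zero, Real.exp_zero, one_mul,
    intervalIntegral.integral_const_mul] at h1
  have hcb : Continuous fun t => 3 * B * b t := continuous_const.mul hb
  rw [intervalIntegral.integral_add (hb₁.intervalIntegrable _ _) (hcb.intervalIntegrable _ _),
    intervalIntegral.integral_const_mul, hF] at h1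
  rw [integral_const_mul, ← mul_add] at h1
  have h2 := le_of_mul_le_mul_left h1 hκ0
  linarith

end Pool.Agent.KIL.H77
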